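import Pool.Agent.R286.UW.Stm
import Pool.Agent.R286.UW.Diag
import Pool.Agent.R286.UW.Sel
import Pool.Agent.R286.UW.Op
import Pool.Agent.R286.UW.Fu
import Pool.Agent.R286.UW.Sot
import Pool.Agent.R286.UW.In
import Pool.Agent.R286.UW.Notin
import Pool.Agent.R286.UW.Upx
import Pool.Agent.R286.UW.Iid
import Pool.Agent.R286.UW.Mom
import Pool.Agent.R286.UW.One
import Pool.Agent.R286.UW.Sys
import Pool.Agent.R286.UW.Box
import Pool.Agent.R286.UW.WitA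
import Pool.Agent.R286.UW.WitB
import Pool.Agent.R286.UW.LpA
import Pool.Agent.R286.UW.LpB

/-!
# MP_7518b9_an: norm-bounded WOT approximation by ultrapower operators on `L^p`

For every `1 < p < ∞`, `p ≠ 2`, and every selective ultrafilter `𝒰` there is an operator in the WOT
closure of `{T^𝒰 : T ∈ B(L^p)}` which lies in the WOT closure of `{T^𝒰 : ‖T‖ ≤ r}` for no `r`.
-/

set_option autoImplicit false

open Filter Topology MeasureTheory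
open scoped ENNReal

namespace Pool.Agent.Results.MP_7518b9_an.UltrapowerWOT

open Pool.Agent.R286.UW

/-- selective ultrafilters on `ℕ`: `𝒰` is nonprincipal and for every partition of `ℕ` (into the pieces
`c ⁻¹' {j}`) none of whose pieces lies in `𝒰`, some set in `𝒰` meets each piece at most once -/
def Selective (𝒰 : Ultrafilter ℕ) : Prop :=
  (∀ n : ℕ, ({n} : Set ℕ) ∉ 𝒰) ∧
    ∀ c : ℕ → ℕ, (∀ j, c ⁻¹' {j} ∉ 𝒰) → ∃ A ∈ 𝒰, Set.InjOn c A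

section defs

variable {𝕜 : Type*} [RCLike 𝕜] {E : Type*} [NormedAddCommGroup E] [NormedSpace 𝕜 E]
  {Y : Type*} [NormedAddCommGroup Y] [NormedSpace 𝕜 Y]

/-- bounded sequences in `E` -/
def Bdd (x : ℕ → E) : Prop := ∃ M : ℝ, ∀ n, ‖x n‖ ≤ M

variable (𝕜) in
/-- `Y` is the ultrapower `E^𝒰`, with class map `x ↦ c x = (x_n)_𝒰` on the bounded sequences (the
values of `c` at unbounded sequences play no role): `c` is linear, onto, and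
`‖(x_n)_𝒰‖ = lim_𝒰 ‖x_n‖`. This determines `Y` and `c` up to isometric isomorphism. -/
structure IsUltrapower (𝒰 : Ultrafilter ℕ) (c : (ℕ → E) → Y) : Prop where
  surj : ∀ y, ∃ x, Bdd x ∧ c x = y
  add : ∀ x x', Bdd x → Bdd x' → c (fun n => x n + x' n) = c x + c x'
  smul : ∀ (a : 𝕜) x, Bdd x → c (fun n => a • x n) = a • c x
  norm : ∀ x, Bdd x → Tendsto (fun n => ‖x n‖) (𝒰 : Filter ℕ) (𝓝 ‖c x‖)

/-- `T'` is the ultrapower operator `T^𝒰`, `T^𝒰 (x_n)_𝒰 = (T x_n)_𝒰` -/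
def IsUp (c : (ℕ → E) → Y) (T : E →L[𝕜] E) (T' : Y →L[𝕜] Y) : Prop :=
  ∀ x, Bdd x → T' (c x) = c (fun n => T (x n))

/-- closure in the weak operator topology of `B(Y)` -/
def WOTClosure (𝒮 : Set (Y →L[𝕜] Y)) : Set (Y →L[𝕜] Y) :=
  {S | ∀ F : Finset (Y × (Y →L[𝕜] 𝕜)), ∀ ε : ℝ, 0 < ε →
    ∃ T' ∈ 𝒮, ∀ y ∈ F, ‖y.2 (S y.1 - T' y.1)‖ < ε}

variable (𝕜)

/-- `𝒜`: the closure of `{T^𝒰 : T ∈ B(E)}` in the weak operator topology of `B(E^𝒰)` -/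
def AA (c : (ℕ → E) → Y) : Set (Y →L[𝕜] Y) := WOTClosure {T' | ∃ T : E →L[𝕜] E, IsUp c T T'}

/-- `𝒜_r`: the closure of `{T^𝒰 : ‖T‖ ≤ r}` in the weak operator topology of `B(E^𝒰)` -/
def AAr (c : (ℕ → E) → Y) (r : ℝ) : Set (Y →L[𝕜] Y) :=
  WOTClosure {T' | ∃ T : E →L[𝕜] E, ‖T‖ ≤ r ∧ IsUp c T T'}

variable {𝕜}

theorem bdd_iff (x : ℕ → E) : Bdd x ↔ Memℓp x ∞ := by
  rw [memℓp_infty_iff]
  constructor
  · rintro ⟨M, hM⟩
    refine ⟨M, ?_⟩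
    rintro _ ⟨n, rfl⟩
    exact hM n
  · rintro ⟨M, hM⟩
    exact ⟨M, fun n => hM ⟨n, rfl⟩⟩

/-- the linear class map on the space of bounded sequences -/
def lin {𝒰 : Ultrafilter ℕ} {c : (ℕ → E) → Y} (hc : IsUltrapower 𝕜 𝒰 c) : BS E →ₗ[𝕜] Y where
  toFun x := c x
  map_add' x x' := hc.add x x' ((bdd_iff _).2 x.2) ((bdd_iff _).2 x'.2)
  map_smul' a x := hc.smul a x ((bdd_iff _).2 x.2)

theorem isUP_lin {𝒰 : Ultrafilter ℕ} {c : (ℕ → E) → Y} (hc : IsUltrapower 𝕜 𝒰 c) :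
    IsUP 𝒰 (lin hc) where
  surj y := by
    obtain ⟨x, hx, hxy⟩ := hc.surj y
    exact ⟨⟨x, (bdd_iff x).1 hx⟩, hxy⟩
  norm x := hc.norm x ((bdd_iff _).2 x.2)

theorem isUp_iff {𝒰 : Ultrafilter ℕ} {c : (ℕ → E) → Y} (hc : IsUltrapower 𝕜 𝒰 c)
    (T : E →L[𝕜] E) (T' : Y →L[𝕜] Y) : IsUp c T T' ↔ IsUpOp (lin hc) T T' := by
  constructor
  · intro h x x' hx
    have e : (x' : ℕ → E) = fun n => T (x n) := funext hx
    have h1 := h x ((bdd_iff _).2 x.2)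
    rw [← e] at h1
    exact h1
  · intro h x hx
    have hm : Memℓp (fun n => T (x n)) ∞ := by
      obtain ⟨M, hM⟩ := hx
      refine (bdd_iff _).1 ⟨‖T‖ * M, fun n => ?_⟩
      exact (T.le_opNorm _).trans (mul_le_mul_of_nonneg_left (hM n) (norm_nonneg _))
    exact h ⟨x, (bdd_iff x).1 hx⟩ ⟨_, hm⟩ (fun n => rfl)

/-- the ultrapower operator `T^𝒰` exists and is unique -/
theorem exists_isUp {𝒰 : Ultrafilter ℕ} {c : (ℕ → E) → Y} (hc : IsUltrapower 𝕜 𝒰 c)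
    (T : E →L[𝕜] E) : ∃! T' : Y →L[𝕜] Y, IsUp c T T' := by
  obtain ⟨T', hT'⟩ := upop 𝒰 _ (isUP_lin hc) T
  refine ⟨T', (isUp_iff hc T T').2 hT', fun T₂ h₂ => ?_⟩
  refine ContinuousLinearMap.ext (fun y => ?_)
  obtain ⟨x, hx, rfl⟩ := hc.surj y
  exact (h₂ x hx).trans (((isUp_iff hc T T').2 hT') x hx).symm

/-- the ultrapower exists -/
theorem exists_ultrapower (𝒰 : Ultrafilter ℕ) :
    ∃ c : (ℕ → E) → UPow 𝕜 E 𝒰, IsUltrapower 𝕜 𝒰 c := by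
  classical
  let c : (ℕ → E) → UPow 𝕜 E 𝒰 :=
    fun x => if h : Memℓp x ∞ then (nullSub 𝕜 E 𝒰).mkQ ⟨x, h⟩ else 0
  have hc : ∀ (x : ℕ → E) (h : Memℓp x ∞), c x = (nullSub 𝕜 E 𝒰).mkQ ⟨x, h⟩ :=
    fun x h => dif_pos h
  have hU := upx (𝕜 := 𝕜) (E := E) 𝒰
  refine ⟨c, ?_, ?_, ?_, ?_⟩
  · intro y
    obtain ⟨x, rfl⟩ := hU.surj y
    exact ⟨x, (bdd_iff _).2 x.2, hc x x.2⟩
  · intro x x' hx hx'
    have h1 := (bdd_iff x).1 hx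
    have h2 := (bdd_iff x').1 hx'
    have h3 : Memℓp (fun n => x n + x' n) ∞ := h1.add h2
    have e : c (fun n => x n + x' n) = (nullSub 𝕜 E 𝒰).mkQ ⟨fun n => x n + x' n, h3⟩ := hc _ h3
    rw [hc x h1, hc x' h2, e, ← map_add]
    rfl
  · intro a x hx
    have h1 := (bdd_iff x).1 hx
    have h2 : Memℓp (fun n => a • x n) ∞ := h1.const_smul a
    have e : c (fun n => a • x n) = (nullSub 𝕜 E 𝒰).mkQ ⟨fun n => a • x n, h2⟩ := hc _ h2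
    rw [hc x h1, e, ← map_smul]
    rfl
  · intro x hx
    have h1 := (bdd_iff x).1 hx
    rw [hc x h1]
    exact hU.norm ⟨x, h1⟩

end defs

theorem of_witness {𝕜 : Type*} [RCLike 𝕜] {E : Type*} [NormedAddCommGroup E] [NormedSpace 𝕜 E]
    [CompleteSpace E] {Y : Type*} [NormedAddCommGroup Y] [NormedSpace 𝕜 Y] (𝒰 : Ultrafilter ℕ)
    (h𝒰 : Selective 𝒰) (c : (ℕ → E) → Y) (hc : IsUltrapower 𝕜 𝒰 c) (a : ℕ → E →L[𝕜] 𝕜)
    (b : ℕ → E) (h : Witness a b) : ∃ S ∈ AA 𝕜 c, ∀ r : ℝ, S ∉ AAr 𝕜 c r := by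
  let b' : BS E := ⟨b, (bdd_iff b).1 ⟨1, h.bdb⟩⟩
  have hU := isUP_lin hc
  obtain ⟨Φ, hΦ⟩ := func 𝒰 _ hU a 1 h.bda
  refine ⟨ContinuousLinearMap.smulRight Φ (lin hc b'), ?_, fun r hr => ?_⟩
  · intro F ε hε
    obtain ⟨T, T', hT, hTT⟩ :=
      inn func (sot (sel diag) op upop) inferInstance 𝒰 _ hU h𝒰 a b' h Φ hΦ F ε hε
    exact ⟨T', ⟨T, (isUp_iff hc T T').2 hT⟩, hTT⟩
  · refine notin func 𝒰 _ hU h𝒰.1 a b' h Φ hΦ r (fun F ε hε => ?_)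
    obtain ⟨T', ⟨T, hr, hT⟩, hTT⟩ := hr F ε hε
    exact ⟨T, T', hr, (isUp_iff hc T T').1 hT, hTT⟩

/-- For `1 < p < ∞`, `p ≠ 2`, and every selective ultrafilter `𝒰`: the ultrapower of `L^p[0,1]`
exists, and on it some `S ∈ 𝒜` lies in no `𝒜_r`. -/
theorem result (𝕜 : Type) [RCLike 𝕜] (p : ℝ≥0∞) [Fact (1 ≤ p)] (h1 : 1 < p) (h2 : p < ∞)
    (h3 : p ≠ 2) (𝒰 : Ultrafilter ℕ) (h𝒰 : Selective 𝒰) :
    (∃ (Y : Type) (_ : NormedAddCommGroup Y) (_ : NormedSpace 𝕜 Y)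
      (c : (ℕ → Lp 𝕜 p (volume : Measure unitInterval)) → Y), IsUltrapower 𝕜 𝒰 c) ∧
    ∀ (Y : Type) [NormedAddCommGroup Y] [NormedSpace 𝕜 Y]
      (c : (ℕ → Lp 𝕜 p (volume : Measure unitInterval)) → Y), IsUltrapower 𝕜 𝒰 c →
        ∃ S ∈ AA 𝕜 c, ∀ r : ℝ, S ∉ AAr 𝕜 c r := by
  have hS : StSys := sys iid mom one
  refine ⟨?_, fun Y _ _ c hc => ?_⟩
  · obtain ⟨c, hc⟩ := exists_ultrapower (𝕜 := 𝕜)
      (E := Lp 𝕜 p (volume : Measure unitInterval)) 𝒰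
    exact ⟨_, _, _, c, hc⟩
  rcases lt_or_gt_of_ne h3 with h | h
  · obtain ⟨C, β, G, ρ, f, ρs, hC, hβ, hβ1, hD⟩ := lpB (𝕜 := 𝕜) hS box p h1 h
    obtain ⟨a, b, hab⟩ := witB inferInstance C β G ρ f ρs hC hβ hβ1 hD
    exact of_witness 𝒰 h𝒰 c hc a b hab
  · obtain ⟨C, β, G, ρ, f, ρs, hC, hβ, hβ1, hD⟩ := lpA (𝕜 := 𝕜) hS box p h h2
    obtain ⟨a, b, hab⟩ := witA C β G ρ f ρs hC hβ hβ1 hD
    exact of_witness 𝒰 h𝒰 c hc a b hab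

end Pool.Agent.Results.MP_7518b9_an.UltrapowerWOT
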